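import Pool.Agent.L7h83.GK.Stm

set_option autoImplicit false

/-!
Project GK (MP_5dc923_co): EXP and ST2.
-/

namespace Pool.Agent.L7h65.GK

open Finset
open Pool.Agent.H126R2.CDC (T3 IsFl excess MGraph lab isFl_iff)
open Pool.Agent.Helper879.ECD (F2 f2_add_self)
open Pool.Agent.L7h83.GK

lemma sum_split {E N X : Type} [Fintype E] [Fintype N] [AddCommMonoid X]
    (F : (E ⊕ N) × Bool → X) :
    ∑ h : (E ⊕ N) × Bool, F h =
      ∑ h : E × Bool, F (Sum.inl h.1, h.2) + ∑ k : N × Bool, F (Sum.inr k.1, k.2) := by
  rw [Fintype.sum_prod_type, Fintype.sum_sum_type, Fintype.sum_prod_type, Fintype.sum_prod_type]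

lemma dg_eq_sum {W E : Type} [Fintype W] [DecidableEq W] [Fintype E] [DecidableEq E]
    (v : E × Bool → W) (w : W) : dg v w = ∑ h : E × Bool, if v h = w then 1 else 0 := by
  unfold dg
  rw [Finset.card_filter]

lemma u_iff {W E M : Type} (v : E × Bool → W) (w0 : W) (u : E × Bool → W ⊕ M)
    (hu : ∀ h, col w0 (u h) = v h) (w : W) (hw : w ≠ w0) (h : E × Bool) :
    u h = Sum.inl w ↔ v h = w := by
  constructor
  · intro h1
    rw [← hu h, h1]; rfl
  · intro h1
    have h2 := hu h
    rcases hq : u h with x | m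
    · rw [hq] at h2
      have h3 : x = v h := h2
      rw [h3, h1]
    · rw [hq] at h2
      have h3 : w0 = v h := h2
      exact absurd (h1.symm.trans h3.symm) hw

lemma n_ne {W N M : Type} (w0 : W) (n : N × Bool → W ⊕ M)
    (hn : ∀ k, col w0 (n k) = w0) (w : W) (hw : w ≠ w0) (k : N × Bool) :
    n k ≠ Sum.inl w := by
  intro h1
  have h2 := hn k
  rw [h1] at h2
  exact hw h2

lemma sum_at {W E M N X : Type} [Fintype W] [DecidableEq W] [Fintype E] [DecidableEq E]
    [Fintype M] [DecidableEq M] [Fintype N] [DecidableEq N] [AddCommMonoid X]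
    (v : E × Bool → W) (w0 : W) (u : E × Bool → W ⊕ M) (n : N × Bool → W ⊕ M)
    (hu : ∀ h, col w0 (u h) = v h) (hn : ∀ k, col w0 (n k) = w0) (w : W) (hw : w ≠ w0)
    (g : E ⊕ N → X) :
    ∑ h : (E ⊕ N) × Bool, (if glue u n h = Sum.inl w then g h.1 else 0) =
      ∑ h : E × Bool, (if v h = w then g (Sum.inl h.1) else 0) := by
  rw [sum_split]
  have h1 : ∑ k : N × Bool, (if glue u n (Sum.inr k.1, k.2) = Sum.inl w
      then g (Sum.inr k.1) else 0) = 0 := by
    apply Finset.sum_eq_zero
    intro k _
    rw [if_neg]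
    exact n_ne w0 n hn w hw k
  rw [h1, add_zero]
  apply Finset.sum_congr rfl
  intro h _
  have h2 := u_iff v w0 u hu w hw h
  have h3 : glue u n (Sum.inl h.1, h.2) = u h := rfl
  rw [h3]
  by_cases h4 : v h = w
  · rw [if_pos h4, if_pos (h2.2 h4)]
  · rw [if_neg h4, if_neg (fun h5 => h4 (h2.1 h5))]

theorem s_EXP : S_EXP := by
  intro W E M N _ _ _ _ _ _ _ _ v w0 u n hu hn
  refine ⟨?_, ?_, ?_⟩
  · intro g hg
    rw [isFl_iff] at hg ⊢
    intro c
    have h1 := hg (fun x => c (col w0 x))
    rw [Fintype.sum_sum_type] at h1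
    have h2 : ∀ k : N, col w0 (glue u n (Sum.inr k, false)) = w0 := fun k => hn (k, false)
    have h3 : ∀ k : N, col w0 (glue u n (Sum.inr k, true)) = w0 := fun k => hn (k, true)
    have h4 : ∀ e : E, col w0 (glue u n (Sum.inl e, false)) = v (e, false) :=
      fun e => hu (e, false)
    have h5 : ∀ e : E, col w0 (glue u n (Sum.inl e, true)) = v (e, true) := fun e => hu (e, true)
    simp only [h2, h3, h4, h5, f2_add_self, mul_zero, Finset.sum_const_zero, add_zero] at h1
    exact h1
  · intro g hg hm
    have hx : ∀ w : W, w ≠ w0 →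
        ∑ h : (E ⊕ N) × Bool, (if glue u n h = Sum.inl w then g h.1 else 0) = 0 := by
      intro w hw
      rw [sum_at v w0 u n hu hn w hw g]
      exact hg w
    have htot : ∑ x : W ⊕ M, ∑ h : (E ⊕ N) × Bool, (if glue u n h = x then g h.1 else 0) = 0 := by
      rw [Finset.sum_comm]
      simp only [Finset.sum_ite_eq, Finset.mem_univ, if_true]
      rw [Fintype.sum_prod_type]
      apply Finset.sum_eq_zero
      intro e _
      rw [Fintype.sum_bool]
      exact f2_add_self _
    rintro (w | m)
    · by_cases hw : w = w0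
      · subst hw
        refine Eq.trans ?_ htot
        symm
        apply Finset.sum_eq_single
        · rintro (w' | m) _ hne
          · exact hx w' (fun h => hne (by rw [h]))
          · exact hm m
        · intro h
          exact absurd (Finset.mem_univ _) h
      · exact hx w hw
    · exact hm m
  · intro hm h4 hlt
    have e1 : excess (glue u n) = ∑ w : W, (dg (glue u n) (Sum.inl w) - 3) := by
      have e2 : excess (glue u n) = ∑ x : W ⊕ M, (dg (glue u n) x - 3) := rfl
      rw [e2, Fintype.sum_sum_type]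
      have e3 : ∑ m : M, (dg (glue u n) (Sum.inr m) - 3) = 0 := by
        apply Finset.sum_eq_zero
        intro m _
        have := hm m
        omega
      rw [e3, add_zero]
    have e2 : excess v = ∑ w : W, (dg v w - 3) := rfl
    rw [e1, e2]
    have hd : ∀ w, w ≠ w0 → dg (glue u n) (Sum.inl w) = dg v w := by
      intro w hw
      rw [dg_eq_sum, dg_eq_sum]
      exact sum_at v w0 u n hu hn w hw (fun _ => (1 : ℕ))
    apply Finset.sum_lt_sum
    · intro w _
      by_cases hw : w = w0
      · subst hw; omega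
      · rw [hd w hw]
    · exact ⟨w0, Finset.mem_univ _, by omega⟩

theorem s_ST2 (hE : S_EXP) : S_ST2 := by
  intro W E _ _ _ _ v A R hH h1 h2 hne hv hdg hA0 hAe
  obtain ⟨hfl, hnz, hR, hch⟩ := hH
  have hA02 : A 0 h2.1 ≠ 0 := by rw [← hAe 0]; exact hA0
  let u : E × Bool → W ⊕ Unit := fun h => if h = h1 ∨ h = h2 then Sum.inr () else Sum.inl (v h)
  let n : Empty × Bool → W ⊕ Unit := fun k => k.1.elim
  have hu : ∀ h, col (v h1) (u h) = v h := by
    intro h
    by_cases hc : h = h1 ∨ h = h2
    · have e1 : u h = Sum.inr () := if_pos hc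
      rw [e1]
      change v h1 = v h
      rcases hc with rfl | rfl
      · rfl
      · exact hv
    · have e1 : u h = Sum.inl (v h) := if_neg hc
      rw [e1]; rfl
  have hn : ∀ k, col (v h1) (n k) = v h1 := fun k => k.1.elim
  obtain ⟨ex1, ex2, ex3⟩ := hE W E Unit Empty v (v h1) u n hu hn
  have hu0 : ∀ e : E, A 0 e = 0 → ∀ s, u (e, s) = Sum.inl (v (e, s)) := by
    intro e he s
    apply if_neg
    rintro (h | h)
    · apply hA0; rw [← h]; exact he
    · apply hA02; rw [← h]; exact he
  let A' : Fin 3 → E ⊕ Empty → F2 := fun i => Sum.elim (A i) (fun k => k.elim)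
  let R' : E ⊕ Empty → Prop := Sum.elim R (fun k => k.elim)
  refine ⟨W ⊕ Unit, E ⊕ Empty, inferInstance, inferInstance, inferInstance, inferInstance,
    glue u n, A', R', ⟨?_, ?_, ?_, ?_⟩, ?_, ?_⟩
  · intro i
    apply ex2 (A' i) (hfl i)
    intro m
    rw [sum_split]
    rw [Finset.sum_eq_zero (s := (univ : Finset (Empty × Bool))) (fun k _ => k.1.elim), add_zero]
    have e1 : ∀ h ∈ (univ : Finset (E × Bool)),
        (if glue u n (Sum.inl h.1, h.2) = Sum.inr m then A' i (Sum.inl h.1) else 0) =
          (if h = h1 then A i h1.1 else 0) + (if h = h2 then A i h2.1 else 0) := by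
      intro h _
      have e2 : glue u n (Sum.inl h.1, h.2) = u h := rfl
      have e3 : A' i (Sum.inl h.1) = A i h.1 := rfl
      rw [e2, e3]
      by_cases c1 : h = h1
      · subst c1
        have e4 : u h = Sum.inr m := if_pos (Or.inl rfl)
        rw [if_pos e4, if_pos rfl, if_neg hne, add_zero]
      · by_cases c2 : h = h2
        · subst c2
          have e4 : u h = Sum.inr m := if_pos (Or.inr rfl)
          rw [if_pos e4, if_pos rfl, if_neg c1, zero_add]
        · have e4 : u h = Sum.inl (v h) := if_neg (by rintro (h | h) <;> contradiction)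
          rw [e4, if_neg (by simp), if_neg c1, if_neg c2, add_zero]
    rw [Finset.sum_congr rfl e1, Finset.sum_add_distrib]
    simp only [Finset.sum_ite_eq', Finset.mem_univ, if_true]
    rw [hAe i]
    exact f2_add_self _
  · rintro (e | k)
    · exact hnz e
    · exact k.elim
  · rintro (e | k) he
    · exact hR e he
    · exact k.elim
  · rintro (e | k) (f | k') he hf
    · have key : ∀ f, Relation.ReflTransGen (Stp v (A 0)) e f →
          A 0 f = 0 ∧ Relation.ReflTransGen (Stp (glue u n) (A' 0)) (Sum.inl e) (Sum.inl f) := by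
        intro f hf
        induction hf with
        | refl => exact ⟨hR e he, Relation.ReflTransGen.refl⟩
        | tail _ hbc ih =>
          rename_i b c _
          obtain ⟨hb, ih⟩ := ih
          obtain ⟨hc, s, t, hst⟩ := hbc
          refine ⟨hc, ih.tail ⟨hc, s, t, ?_⟩⟩
          change u (b, s) = u (c, t)
          rw [hu0 b hb s, hu0 c hc t, hst]
      exact (key f (hch e f he hf)).2
    · exact k'.elim
    · exact k.elim
    · exact k.elim
  · apply ex3
    · intro m
      unfold dg
      have e1 : (univ.filter (fun h => glue u n h = Sum.inr m)) ⊆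
          ({(Sum.inl h1.1, h1.2), (Sum.inl h2.1, h2.2)} : Finset ((E ⊕ Empty) × Bool)) := by
        rintro ⟨e | k, s⟩ hx
        · have hx' : u (e, s) = Sum.inr m := (Finset.mem_filter.1 hx).2
          by_cases hc : (e, s) = h1 ∨ (e, s) = h2
          · rcases hc with hc | hc
            · rw [← hc]; simp
            · rw [← hc]; simp
          · have e4 : u (e, s) = Sum.inl (v (e, s)) := if_neg hc
            rw [e4] at hx'
            exact absurd hx' (by simp)
        · exact k.elim
      calc _ ≤ _ := Finset.card_le_card e1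
        _ ≤ 2 := Finset.card_le_two
        _ ≤ 3 := by norm_num
    · exact hdg
    · rw [dg_eq_sum, dg_eq_sum, sum_split]
      rw [Finset.sum_eq_zero (s := (univ : Finset (Empty × Bool))) (fun k _ => k.1.elim), add_zero]
      apply Finset.sum_lt_sum
      · intro h _
        change (if u h = Sum.inl (v h1) then 1 else 0) ≤ _
        by_cases hc : u h = Sum.inl (v h1)
        · have h5 := hu h
          rw [hc] at h5
          have h6 : v h1 = v h := h5
          rw [if_pos hc, if_pos h6.symm]
        · rw [if_neg hc]; exact Nat.zero_le _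
      · refine ⟨h1, Finset.mem_univ _, ?_⟩
        change (if u h1 = Sum.inl (v h1) then 1 else 0) < _
        have e4 : u h1 = Sum.inr () := if_pos (Or.inl rfl)
        rw [e4, if_neg (by simp), if_pos rfl]
        norm_num
  · rintro ⟨S, P, hP, hS, hc, hRS, hone⟩
    refine ⟨fun e => S (Sum.inl e), P, hP, fun e => hS _, fun c => ?_, fun e he => hRS (Sum.inl e) he,
      fun e he => hone (Sum.inl e) he⟩
    exact ex1 _ (hc c)

end Pool.Agent.L7h65.GK

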